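import Mathlib
import Pool.Agent.TH549.CK.Pub
import Pool.Agent.TH603.EL.Sq

set_option autoImplicit false

/-!
# Negative curves on the symmetric square of a very general curve of genus `g ≥ 10`

A pointed smooth curve is given by the ring `R ⊆ ℂ((w))` of the functions which are regular outside
the point at infinity (`w` is a local parameter there); `Pole n f` says that `f` has a pole of order
at most `n` at this point. An element `G` of `R ⊗ R` is a function on the square of the curve; the
ideal of the diagonal is `KaehlerDifferential.ideal ℂ R`.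
-/

namespace Pool.Agent.Results.MP_569914_ag.VeryGeneralCurve

open Pool.Agent.TH549.CK.Pub

theorem result (g : ℕ) (hg : 9 < g) :
    ∃ R₀ : Subalgebra ℂ (LaurentSeries ℂ), IsCurve g R₀ ∧ Bound (1 + √g) R₀ ∧
      BoundJ (1 + √g) R₀ ∧
      ∀ (S : Type) [CommRing S] [IsDomain S] [Algebra ℂ S]
        (R : (S →ₐ[ℂ] ℂ) → Subalgebra ℂ (LaurentSeries ℂ)), IsFam S g R →
        (∃ φ₀, R φ₀ = R₀) →
        ∃ s : ℕ → S, (∀ j, s j ≠ 0) ∧ ∀ φ : S →ₐ[ℂ] ℂ, (∀ j, φ (s j) ≠ 0) →
          Bound (1 + √g) (R φ) ∧ (IsIntegrallyClosed (R φ) → BoundJ (1 + √g) (R φ)) :=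
  final (fun _ h0 hind _ _ _ hP hd hPd hm => TH603.EL.nagata hg h0 hind hP hd hPd hm) (by omega)

end Pool.Agent.Results.MP_569914_ag.VeryGeneralCurve
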